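import Mathlib

set_option autoImplicit false

namespace Pool.Agent.Results.MP_68720f_al.NotAdmissible

/-- an `F`-algebra (bilinear product) with a distinguished unit and a linear involution -/
structure InvAlg (F : Type) [Field F] where
  A : Type
  [grp : AddCommGroup A]
  [mod : Module F A]
  mul : A →ₗ[F] A →ₗ[F] A
  bar : A →ₗ[F] A
  one : A

instance {F : Type} [Field F] (X : InvAlg F) : AddCommGroup X.A := X.grp
instance {F : Type} [Field F] (X : InvAlg F) : Module F X.A := X.mod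

/-- product of `A₁ = F[u]`, `u² = u + α`; the pair `(p, q)` stands for `p + q u` -/
def baseFun {F : Type} [Field F] (α : F) (x y : F × F) : F × F :=
  (x.1 * y.1 + α * x.2 * y.2, x.1 * y.2 + x.2 * y.1 + x.2 * y.2)

def baseMul {F : Type} [Field F] (α : F) : F × F →ₗ[F] F × F →ₗ[F] F × F :=
  LinearMap.mk₂ F (baseFun α)
    (fun a b c => by ext <;> simp [baseFun] <;> ring) (fun r a b => by ext <;> simp [baseFun] <;> ring)
    (fun a b c => by ext <;> simp [baseFun] <;> ring) (fun r a b => by ext <;> simp [baseFun] <;> ring)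

/-- the involution `ū = 1 - u` -/
def baseBar (F : Type) [Field F] : F × F →ₗ[F] F × F where
  toFun x := (x.1 + x.2, -x.2)
  map_add' := fun a b => by ext <;> simp <;> ring
  map_smul' := fun r a => by ext <;> simp <;> ring

/-- the algebra `A₁` -/
def base {F : Type} [Field F] (α : F) : InvAlg F where
  A := F × F
  mul := baseMul α
  bar := baseBar F
  one := (1, 0)

/-- `(a + bv)(c + dv) = (ac + γ d̄ b) + (da + b c̄)v` -/
def doubleFun {F : Type} [Field F] (X : InvAlg F) (γ : F) (x y : X.A × X.A) : X.A × X.A :=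
  (X.mul x.1 y.1 + γ • X.mul (X.bar y.2) x.2, X.mul y.2 x.1 + X.mul x.2 (X.bar y.1))

def doubleMul {F : Type} [Field F] (X : InvAlg F) (γ : F) :
    X.A × X.A →ₗ[F] X.A × X.A →ₗ[F] X.A × X.A :=
  LinearMap.mk₂ F (doubleFun X γ)
    (fun a b c => by ext <;> simp [doubleFun] <;> abel)
    (fun r a b => by ext <;> simp [doubleFun, smul_comm γ r])
    (fun a b c => by ext <;> simp [doubleFun] <;> abel)
    (fun r a b => by ext <;> simp [doubleFun, smul_comm γ r])

/-- bar `(a + bv) = ā - bv` -/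
def doubleBar {F : Type} [Field F] (X : InvAlg F) : X.A × X.A →ₗ[F] X.A × X.A where
  toFun x := (X.bar x.1, -x.2)
  map_add' := fun a b => by ext <;> simp <;> abel
  map_smul' := fun r a => by ext <;> simp

/-- Cayley–Dickson doubling -/
def double {F : Type} [Field F] (X : InvAlg F) (γ : F) : InvAlg F where
  A := X.A × X.A
  mul := doubleMul X γ
  bar := doubleBar X
  one := (X.one, 0)

/-- `cd α γ k` is the algebra `A_{k+1}`; the parameter of the step `A_{k+1} → A_{k+2}` is `γ k` -/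
def cd {F : Type} [Field F] (α : F) (γ : ℕ → F) : ℕ → InvAlg F
  | 0 => base α
  | k + 1 => double (cd α γ k) (γ k)

section Defs
variable {F A : Type} [Field F] [AddCommGroup A] [Module F A] (m : A →ₗ[F] A →ₗ[F] A)

/-- value of a nonassociative monomial -/
def evalWord (v : ℕ → A) : FreeMagma ℕ → A
  | FreeMagma.of i => v i
  | FreeMagma.mul x y => m (evalWord v x) (evalWord v y)

/-- the nonassociative polynomial `f` is an identity of the algebra -/
def IsIdentity (f : FreeMagma ℕ →₀ F) : Prop :=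
  ∀ v : ℕ → A, f.sum (fun w c => c • evalWord m v w) = 0

/-- `A² ≠ 0` and the only two-sided ideals are `0` and `A` -/
def Simple : Prop :=
  (∃ x y : A, m x y ≠ 0) ∧
    ∀ I : Submodule F A, (∀ a ∈ I, ∀ b : A, m a b ∈ I ∧ m b a ∈ I) → I = ⊥ ∨ I = ⊤

/-- `x² = 0` and `xy = -yx` -/
def Anticommutative : Prop := (∀ x, m x x = 0) ∧ ∀ x y, m x y = - m y x

/-- for every `l ≥ 1` some product of `l` elements is nonzero -/
def NotNilpotent : Prop :=
  ∀ l : ℕ, 1 ≤ l → ∃ (w : FreeMagma ℕ) (v : ℕ → A), w.length = l ∧ evalWord m v w ≠ 0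

end Defs

/-- every identity of `X` holds in the algebra with product `m` -/
def InVar {F B : Type} [Field F] [AddCommGroup B] [Module F B] (X : InvAlg F)
    (m : B →ₗ[F] B →ₗ[F] B) : Prop :=
  ∀ f, IsIdentity X.mul f → IsIdentity m f

/-- quadratic structure -/
structure Quad {F : Type} [Field F] (X : InvAlg F) (t : X.A →ₗ[F] F) (N : X.A →ₗ[F] X.A →ₗ[F] F) : Prop where
  one_mul : ∀ x, X.mul X.one x = x
  mul_one : ∀ x, X.mul x X.one = x
  bar_eq : ∀ x, X.bar x = t x • X.one - x
  jordan : ∀ x y, X.mul x y + X.mul y x = t x • y + t y • x - N x y • X.one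
  nondeg : ∀ x, (∀ y, N x y = 0) → x = 0
  bar_one : X.bar X.one = X.one
  sep : ∃ u, u - X.bar u ≠ 0

variable {F : Type} [Field F]

lemma dmul (X : InvAlg F) (γ : F) (a b c d : X.A) :
    (double X γ).mul (a, b) (c, d) = (X.mul a c + γ • X.mul (X.bar d) b, X.mul d a + X.mul b (X.bar c)) := rfl

lemma dbar (X : InvAlg F) (γ : F) (a b : X.A) : (double X γ).bar (a, b) = (X.bar a, -b) := rfl

lemma bmul (α p q r s : F) :
    (base α).mul (p, q) (r, s) = (p * r + α * q * s, p * s + q * r + q * s) := rfl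

lemma bbar (α p q : F) : (base α).bar (p, q) = (p + q, -q) := rfl

lemma quad_base : ∃ t N, Quad (base (0 : F)) t N := by
  let t : F × F →ₗ[F] F :=
    { toFun := fun x => 2 * x.1 + x.2
      map_add' := fun a b => by simp; ring
      map_smul' := fun r a => by simp; ring }
  let N : F × F →ₗ[F] F × F →ₗ[F] F := LinearMap.mk₂ F
    (fun x y => 2 * x.1 * y.1 + x.1 * y.2 + x.2 * y.1)
    (fun a b c => by simp; ring) (fun r a b => by simp; ring)
    (fun a b c => by simp; ring) (fun r a b => by simp; ring)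
  refine ⟨t, N, ?_, ?_, ?_, ?_, ?_, ?_, ?_⟩
  · rintro ⟨p, q⟩
    exact Prod.ext (show 1 * p + 0 * 0 * q = p by ring) (show 1 * q + 0 * p + 0 * q = q by ring)
  · rintro ⟨p, q⟩
    exact Prod.ext (show p * 1 + 0 * q * 0 = p by ring) (show p * 0 + q * 1 + q * 0 = q by ring)
  · rintro ⟨p, q⟩
    exact Prod.ext (show p + q = (2 * p + q) * 1 - p by ring) (show -q = (2 * p + q) * 0 - q by ring)
  · rintro ⟨p, q⟩ ⟨r, s⟩
    exact Prod.ext
      (show p * r + 0 * q * s + (r * p + 0 * s * q) =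
        (2 * p + q) * r + (2 * r + s) * p - (2 * p * r + p * s + q * r) * 1 by ring)
      (show p * s + q * r + q * s + (r * q + s * p + s * q) =
        (2 * p + q) * s + (2 * r + s) * q - (2 * p * r + p * s + q * r) * 0 by ring)
  · rintro ⟨p, q⟩ h
    have h1 : 2 * p * 0 + p * 1 + q * 0 = 0 := h ((0 : F), (1 : F))
    have h2 : 2 * p * 1 + p * 0 + q * 1 = 0 := h ((1 : F), (0 : F))
    have hp : p = 0 := by linear_combination h1
    have hq : q = 0 := by linear_combination h2 - 2 * hp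
    exact Prod.ext hp hq
  · exact Prod.ext (show (1 : F) + 0 = 1 by ring) (show -(0 : F) = 0 by ring)
  · refine ⟨((0 : F), (1 : F)), fun h => ?_⟩
    have : (0 : F) - (0 + 1) = 0 := congrArg Prod.fst h
    simp at this

lemma quad_double (X : InvAlg F) (γ : F) (hγ : γ ≠ 0) (h : ∃ t N, Quad X t N) :
    ∃ t N, Quad (double X γ) t N ∧
      ∃ y z, (double X γ).mul y z - (double X γ).mul z y ≠ 0 ∧
        t ((double X γ).mul y z - (double X γ).mul z y) = 0 := by
  obtain ⟨t, N, h⟩ := h
  let t' : X.A × X.A →ₗ[F] F := t ∘ₗ LinearMap.fst F _ _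
  let N' : X.A × X.A →ₗ[F] X.A × X.A →ₗ[F] F := LinearMap.mk₂ F
    (fun x y => N x.1 y.1 - γ * N y.2 x.2)
    (fun a b c => by simp; ring) (fun r a b => by simp; ring)
    (fun a b c => by simp; ring) (fun r a b => by simp; ring)
  refine ⟨t', N', ⟨?_, ?_, ?_, ?_, ?_, ?_, ?_⟩, ?_⟩
  · rintro ⟨a, b⟩
    exact Prod.ext
      (show X.mul X.one a + γ • X.mul (X.bar b) 0 = a by simp [h.one_mul])
      (show X.mul b X.one + X.mul 0 (X.bar a) = b by simp [h.mul_one])
  · rintro ⟨a, b⟩
    exact Prod.ext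
      (show X.mul a X.one + γ • X.mul (X.bar 0) b = a by simp [h.mul_one])
      (show X.mul 0 a + X.mul b (X.bar X.one) = b by simp [h.mul_one, h.bar_one])
  · rintro ⟨a, b⟩
    exact Prod.ext
      (show X.bar a = t a • X.one - a from h.bar_eq a)
      (show -b = t a • (0 : X.A) - b by simp)
  · rintro ⟨a, b⟩ ⟨c, d⟩
    refine Prod.ext
      (show X.mul a c + γ • X.mul (X.bar d) b + (X.mul c a + γ • X.mul (X.bar b) d) =
        t a • c + t c • a - (N a c - γ * N d b) • X.one from ?_)
      (show X.mul d a + X.mul b (X.bar c) + (X.mul b c + X.mul d (X.bar a)) =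
        t a • d + t c • b - (N a c - γ * N d b) • (0 : X.A) from ?_)
    · have e1 := h.jordan a c
      have e2 := h.jordan d b
      simp only [h.bar_eq, map_sub, map_smul, LinearMap.sub_apply, LinearMap.smul_apply, h.one_mul]
      linear_combination (norm := module) e1 - γ • e2
    · simp only [h.bar_eq, map_sub, map_smul, h.mul_one]
      module
  · rintro ⟨a, b⟩ hh
    refine Prod.ext (h.nondeg a fun y => ?_) (h.nondeg b fun y => ?_)
    · have : N a y - γ * N 0 b = 0 := hh (y, 0)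
      simpa using this
    · have e : N a 0 - γ * N y b = 0 := hh (0, y)
      have e' : N y b = 0 := by simpa [hγ] using e
      have s1 := h.jordan y b
      have s2 := h.jordan b y
      have s3 : N b y • X.one = 0 := by
        rw [e'] at s1
        linear_combination (norm := module) s2 - s1
      by_contra hne
      have h1 : X.one = 0 := by simpa [hne] using s3
      have hb : b = 0 := by rw [← h.mul_one b, h1, map_zero]
      apply hne
      simp [hb]
  · exact Prod.ext h.bar_one (show -(0 : X.A) = 0 by simp)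
  · obtain ⟨u, hu⟩ := h.sep
    exact ⟨(u, 0), fun e => hu (congrArg Prod.fst e)⟩
  · obtain ⟨u, hu⟩ := h.sep
    refine ⟨(u, 0), (0, X.one), fun e => hu ?_, ?_⟩
    · have : X.mul X.one u + X.mul 0 (X.bar 0) - (X.mul 0 0 + X.mul X.one (X.bar u)) = 0 :=
        congrArg Prod.snd e
      simpa [h.one_mul] using this
    · show t (X.mul u 0 + γ • X.mul (X.bar X.one) 0 - (X.mul 0 u + γ • X.mul (X.bar 0) X.one)) = 0
      simp

lemma simple_of (X : InvAlg F) (t : X.A →ₗ[F] F) (N : X.A →ₗ[F] X.A →ₗ[F] F) (h : Quad X t N)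
    (y z : X.A) (h1 : X.mul y z - X.mul z y ≠ 0) (h2 : t (X.mul y z - X.mul z y) = 0) :
    Simple X.mul := by
  refine ⟨⟨X.one, _, by rwa [h.one_mul]⟩, fun I hI => ?_⟩
  by_cases h0 : I = ⊥
  · exact Or.inl h0
  right
  have key : ∀ x ∈ I, ∀ w, t x • w - N x w • X.one ∈ I := by
    intro x hx w
    have := I.sub_mem (I.add_mem (hI x hx w).1 (hI x hx w).2) (I.smul_mem (t w) hx)
    rw [h.jordan] at this
    convert this using 1
    abel
  have k0 : ∀ x ∈ I, x ≠ 0 → t x = 0 → I = ⊤ := by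
    intro x hx hx0 htx
    obtain ⟨w, hw⟩ : ∃ w, N x w ≠ 0 := by
      by_contra hh
      push Not at hh
      exact hx0 (h.nondeg x hh)
    have := I.smul_mem (-(N x w)⁻¹) (key x hx w)
    rw [htx, zero_smul, zero_sub, smul_neg, neg_smul, neg_neg, smul_smul, inv_mul_cancel₀ hw,
      one_smul] at this
    rw [eq_top_iff]
    intro a _
    rw [← h.one_mul a]
    exact (hI _ this a).1
  obtain ⟨x, hx, hx0⟩ := Submodule.exists_mem_ne_zero_of_ne_bot h0
  by_cases htx : t x = 0
  · exact k0 x hx hx0 htx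
  · refine k0 _ ?_ h1 h2
    have e := I.smul_mem (t x)⁻¹ (I.sub_mem (hI _ (key x hx y) z).1 (hI _ (key x hx y) z).2)
    simp only [map_sub, map_smul, LinearMap.sub_apply, LinearMap.smul_apply, h.one_mul,
      h.mul_one] at e
    convert e using 1
    rw [sub_sub_sub_cancel_right, ← smul_sub, smul_smul, inv_mul_cancel₀ htx, one_smul]

lemma quad_cd (k : ℕ) : ∃ t N, Quad (cd (0 : F) (fun _ => 1) k) t N := by
  induction k with
  | zero => exact quad_base
  | succ k ih =>
    obtain ⟨t, N, h, -⟩ := quad_double _ (1 : F) one_ne_zero ih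
    exact ⟨t, N, h⟩

/-- a copy of the two-dimensional non-abelian Lie algebra -/
def Pair (X : InvAlg F) : Prop :=
  ∃ a b : X.A, X.mul a a = 0 ∧ X.mul b b = 0 ∧ X.mul a b = b ∧ X.mul b a = -b ∧ b ≠ 0

def m1 (x y : F × F) : F × F := (x.1 * y.1 + 0 * x.2 * y.2, x.1 * y.2 + x.2 * y.1 + x.2 * y.2)
def c1 (x : F × F) : F × F := (x.1 + x.2, -x.2)
def dm {A : Type} [AddCommGroup A] [Module F A] (m : A → A → A) (c : A → A) (x y : A × A) : A × A :=
  (m x.1 y.1 + (1 : F) • m (c y.2) x.2, m y.2 x.1 + m x.2 (c y.1))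
def dc {A : Type} [AddCommGroup A] (c : A → A) (x : A × A) : A × A := (c x.1, -x.2)

abbrev T4 (F : Type) := (((F × F) × (F × F)) × ((F × F) × (F × F))) × (((F × F) × (F × F)) × ((F × F) × (F × F)))

def m4 : T4 F → T4 F → T4 F :=
  dm (F := F) (dm (F := F) (dm (F := F) m1 c1) (dc c1)) (dc (dc c1))

def aa (F : Type) [Field F] : T4 F := (((((0 : F), (0 : F)), ((0 : F), (1 : F))), (((0 : F), (0 : F)), ((0 : F), (0 : F)))), ((((0 : F), (0 : F)), ((1 : F), (-1 : F))), (((0 : F), (0 : F)), ((0 : F), (0 : F)))))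
def bb (F : Type) [Field F] : T4 F := (((((0 : F), (0 : F)), ((0 : F), (0 : F))), (((0 : F), (1 : F)), ((0 : F), (1 : F)))), ((((0 : F), (0 : F)), ((0 : F), (0 : F))), (((0 : F), (-1 : F)), ((0 : F), (1 : F)))))

lemma pair3 : Pair (cd (0 : F) (fun _ => 1) 3) := by
  have e1 : m4 (aa F) (aa F) = 0 := by simp [m4, dm, dc, m1, c1, aa]
  have e2 : m4 (bb F) (bb F) = 0 := by simp [m4, dm, dc, m1, c1, bb]
  have e3 : m4 (aa F) (bb F) = bb F := by simp [m4, dm, dc, m1, c1, aa, bb]
  have e4 : m4 (bb F) (aa F) = -bb F := by simp [m4, dm, dc, m1, c1, aa, bb]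
  refine ⟨aa F, bb F, e1, e2, e3, e4, ?_⟩
  intro h
  have : (1 : F) = 0 := congrArg (fun x => x.2.2.2.2) h
  exact one_ne_zero this

lemma pair_cd (k : ℕ) : Pair (cd (0 : F) (fun _ => 1) (k + 3)) := by
  induction k with
  | zero => exact pair3
  | succ k ih =>
    obtain ⟨a, b, h1, h2, h3, h4, h5⟩ := ih
    refine ⟨(a, 0), (b, 0), ?_, ?_, ?_, ?_, fun h => h5 (congrArg Prod.fst h)⟩
    · refine (dmul _ _ _ _ _ _).trans (Prod.ext ?_ ?_) <;> simp [h1] <;> rfl
    · refine (dmul _ _ _ _ _ _).trans (Prod.ext ?_ ?_) <;> simp [h2] <;> rfl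
    · refine (dmul _ _ _ _ _ _).trans (Prod.ext ?_ ?_) <;> simp [h3]
    · refine (dmul _ _ _ _ _ _).trans (Prod.ext ?_ ?_)
      · simp only [h4, map_zero, smul_zero, add_zero]; rfl
      · simp only [map_zero, LinearMap.zero_apply, add_zero]; exact neg_zero.symm

def lie2 (F : Type) [Field F] : F × F →ₗ[F] F × F →ₗ[F] F × F :=
  LinearMap.mk₂ F (fun x y => (0, x.1 * y.2 - x.2 * y.1))
    (fun a b c => by ext <;> simp; ring) (fun r a b => by ext <;> simp; ring)
    (fun a b c => by ext <;> simp; ring) (fun r a b => by ext <;> simp; ring)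

def longWord : ℕ → FreeMagma ℕ
  | 0 => FreeMagma.of 1
  | k + 1 => FreeMagma.mul (FreeMagma.of 0) (longWord k)

theorem result : ∀ (F : Type) [Field F] (n : ℕ), 4 ≤ n →
    ∃ (α : F) (γ : ℕ → F), 1 + 4 * α ≠ 0 ∧ (∀ k, γ k ≠ 0) ∧ Simple (cd α γ (n - 1)).mul ∧
      ∃ (B : Type) (_ : AddCommGroup B) (_ : Module F B) (m : B →ₗ[F] B →ₗ[F] B),
        Module.finrank F B = 2 ∧ Anticommutative m ∧ InVar (cd α γ (n - 1)) m ∧ NotNilpotent m := by
  intro F _ n hn
  obtain ⟨k, rfl⟩ : ∃ k, n = k + 4 := ⟨n - 4, by omega⟩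
  refine ⟨0, fun _ => 1, by simp, fun _ => one_ne_zero, ?_, F × F, inferInstance, inferInstance,
    lie2 F, by simp, ⟨?_, ?_⟩, ?_, ?_⟩
  · obtain ⟨t, N, h, y, z, h1, h2⟩ := quad_double _ (1 : F) one_ne_zero (quad_cd (F := F) (k + 2))
    exact simple_of _ t N h y z h1 h2
  · intro x
    exact Prod.ext rfl (show x.1 * x.2 - x.2 * x.1 = 0 by ring)
  · intro x y
    exact Prod.ext (show (0 : F) = -0 by simp)
      (show x.1 * y.2 - x.2 * y.1 = -(y.1 * x.2 - y.2 * x.1) by ring)
  · obtain ⟨a, b, h1, h2, h3, h4, h5⟩ := pair_cd (F := F) k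
    intro f hf v
    let X := cd (0 : F) (fun _ => 1) (k + 3)
    let φ : F × F →ₗ[F] X.A := LinearMap.coprod (LinearMap.toSpanSingleton F _ a)
      (LinearMap.toSpanSingleton F _ b)
    have hφ : ∀ x, φ x = x.1 • a + x.2 • b := fun x => rfl
    have hmul : ∀ x y, φ (lie2 F x y) = X.mul (φ x) (φ y) := by
      intro x y
      rw [hφ, hφ x, hφ y]
      simp only [map_add, map_smul, LinearMap.add_apply, LinearMap.smul_apply]
      rw [h1, h2, h3, h4]
      show (0 : F) • a + (x.1 * y.2 - x.2 * y.1) • b = _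
      module
    have hw : ∀ w, φ (evalWord (lie2 F) v w) = evalWord X.mul (fun i => φ (v i)) w := by
      intro w
      induction w with
      | ih1 i => rfl
      | ih2 x y hx hy => exact (hmul _ _).trans (by rw [hx, hy]; rfl)
    have hinj : ∀ x, φ x = 0 → x = 0 := by
      intro x hx
      have e1 : X.mul (φ x) b = 0 := by rw [hx]; simp
      rw [hφ] at e1 hx
      simp only [map_add, map_smul, LinearMap.add_apply, LinearMap.smul_apply] at e1
      rw [h2, h3] at e1
      have p1 : x.1 = 0 := by simpa [h5] using e1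
      have p2 : x.2 = 0 := by simpa [h5, p1] using hx
      exact Prod.ext p1 p2
    apply hinj
    rw [map_finsuppSum]
    simp only [map_smul, hw]
    exact hf _
  · intro l hl
    obtain ⟨j, rfl⟩ : ∃ j, l = j + 1 := ⟨l - 1, by omega⟩
    let v : ℕ → F × F := fun i => if i = 0 then (1, 0) else (0, 1)
    have e : ∀ j, (longWord j).length = j + 1 ∧ evalWord (lie2 F) v (longWord j) = (0, 1) := by
      intro j
      induction j with
      | zero => exact ⟨rfl, rfl⟩
      | succ j ih =>
        refine ⟨?_, ?_⟩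
        · show 1 + (longWord j).length = _
          rw [ih.1]; ring
        · show lie2 F (1, 0) (evalWord (lie2 F) v (longWord j)) = _
          rw [ih.2]
          exact Prod.ext rfl (show (1 : F) * 1 - 0 * 0 = 1 by ring)
    refine ⟨longWord j, v, (e j).1, ?_⟩
    rw [(e j).2]
    intro h
    exact one_ne_zero (α := F) (congrArg Prod.snd h)

end Pool.Agent.Results.MP_68720f_al.NotAdmissible
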